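import Pool.Agent.Helper51.AJ.St
import Pool.Agent.Helper51.AJ.Basic

/-!
# Project AJ (MP_d63854_co), module DEG: edges leaving a connected set
-/

set_option autoImplicit false

namespace Pool.Agent.Helper98.AJ

open Pool.Agent.Helper51.AJ

theorem hDEG (h1 : StCon) : StDeg := by
  intro V _ B hd
  have key : ∀ n : ℕ, ∀ S : Set V, S.ncard = n → Con B S →
      {p : V × V | p.1 ∈ S ∧ p.2 ∉ S ∧ B.Adj p.1 p.2}.ncard ≤ 2 := by
    intro n
    induction n with
    | zero =>
      intro S hS hc
      exact absurd ((Set.ncard_eq_zero (Set.toFinite S)).1 hS) (con_nonempty hc).ne_empty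
    | succ n ih =>
      intro S hS hc
      obtain ⟨y, hy⟩ := con_nonempty hc
      by_cases hSy : S = {y}
      · subst hSy
        have hsub : {p : V × V | p.1 ∈ ({y} : Set V) ∧ p.2 ∉ ({y} : Set V) ∧ B.Adj p.1 p.2} ⊆
            (fun t => (y, t)) '' B.neighborSet y := by
          rintro ⟨a, b⟩ ⟨ha, _, hab⟩
          have ha' : a = y := ha
          subst ha'
          exact ⟨b, hab, rfl⟩
        exact ((Set.ncard_le_ncard hsub (Set.toFinite _)).trans
          (Set.ncard_image_le (Set.toFinite _))).trans (hd y)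
      · obtain ⟨x, hx, hxy, hc'⟩ := (h1 V B S hc).2.1 y hy hSy
        obtain ⟨x', hx', z, hz, hxz⟩ := (h1 V B S hc).1 {x} (Set.singleton_subset_iff.2 hx)
          (Set.singleton_nonempty x) (by
            intro he
            rw [← he] at hy
            exact hxy (Set.mem_singleton_iff.1 hy).symm)
        rw [Set.mem_singleton_iff] at hx'
        subst hx'
        have hn : (S \ {x'}).ncard = n := by
          rw [Set.ncard_sdiff_singleton_of_mem hx, hS]
          rfl
        have h2 := ih _ hn hc'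
        -- the two parts
        have hA : {p : V × V | (p.1 ∈ S ∧ p.2 ∉ S ∧ B.Adj p.1 p.2) ∧ p.1 ≠ x'}.ncard + 1 ≤ 2 := by
          have hnot : (z, x') ∉ {p : V × V | (p.1 ∈ S ∧ p.2 ∉ S ∧ B.Adj p.1 p.2) ∧ p.1 ≠ x'} :=
            fun h => h.1.2.1 hx
          rw [← Set.ncard_insert_of_notMem hnot (Set.toFinite _)]
          refine (Set.ncard_le_ncard ?_ (Set.toFinite _)).trans h2
          rintro p (hp | hp)
          · subst hp
            exact ⟨hz, fun h => h.2 rfl, hxz.symm⟩
          · exact ⟨⟨hp.1.1, hp.2⟩, fun h => hp.1.2.1 h.1, hp.1.2.2⟩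
        have hL : {t : V | t ∉ S ∧ B.Adj x' t}.ncard + 1 ≤ 2 := by
          have hnot : z ∉ {t : V | t ∉ S ∧ B.Adj x' t} := fun h => h.1 hz.1
          rw [← Set.ncard_insert_of_notMem hnot (Set.toFinite _)]
          refine (Set.ncard_le_ncard ?_ (Set.toFinite _)).trans (hd x')
          rintro t (ht | ht)
          · subst ht
            exact hxz
          · exact ht.2
        have hsub : {p : V × V | p.1 ∈ S ∧ p.2 ∉ S ∧ B.Adj p.1 p.2} ⊆
            {p : V × V | (p.1 ∈ S ∧ p.2 ∉ S ∧ B.Adj p.1 p.2) ∧ p.1 ≠ x'} ∪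
              (fun t => (x', t)) '' {t : V | t ∉ S ∧ B.Adj x' t} := by
          rintro ⟨a, b⟩ hab
          by_cases ha : a = x'
          · subst ha
            exact Or.inr ⟨b, ⟨hab.2.1, hab.2.2⟩, rfl⟩
          · exact Or.inl ⟨hab, ha⟩
        have h3 := (Set.ncard_le_ncard hsub (Set.toFinite _)).trans (Set.ncard_union_le _ _)
        have h4 : ((fun t => (x', t)) '' {t : V | t ∉ S ∧ B.Adj x' t}).ncard ≤
            {t : V | t ∉ S ∧ B.Adj x' t}.ncard := Set.ncard_image_le (Set.toFinite _)
        omega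
  exact fun S hc => key _ S rfl hc

end Pool.Agent.Helper98.AJ
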